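import Pool.Agent.MNT.StmtsA

set_option autoImplicit false

/-!
# MNT, row VBD: potential theory in one page
-/

namespace Pool.Agent.MNT.H76

open Polynomial NumberField
open scoped Classical

theorem msum {E J : Type} [Fintype J] (Z : Multiset E) (c : ℝ) (ν a : J → ℝ) (f : J → E → ℝ) :
    (Z.map fun ζ => c + ∑ k, ν k * (f k ζ - a k)).sum =
      (Multiset.card Z : ℝ) * c +
        ∑ k, ν k * ((Z.map (f k)).sum - (Multiset.card Z : ℝ) * a k) := by
  induction Z using Multiset.induction_on with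
  | empty => simp
  | cons z Z ih =>
    rw [Multiset.map_cons, Multiset.sum_cons, ih, Multiset.card_cons]
    push_cast
    have h1 : ∑ k, ν k * ((Multiset.map (f k) (z ::ₘ Z)).sum -
        ((Multiset.card Z : ℝ) + 1) * a k) = ∑ k, ν k * (f k z - a k) +
          ∑ k, ν k * ((Multiset.map (f k) Z).sum - (Multiset.card Z : ℝ) * a k) := by
      rw [← Finset.sum_add_distrib]
      refine Finset.sum_congr rfl fun k _ => ?_
      rw [Multiset.map_cons, Multiset.sum_cons]
      ring
    rw [h1]
    ring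

theorem qu_sub {E : Type} [Field E] {v : AbsoluteValue E ℝ} {c₀ : ℝ} (h : QU v c₀) (a b : E) :
    v (a - b) ≤ Real.exp c₀ * max (v a) (v b) := by
  have := h.2 a (-b)
  rwa [← sub_eq_add_neg, v.map_neg] at this

/-- Ptolemy -/
theorem ptol {E : Type} [Field E] {v : AbsoluteValue E ℝ} {c₀ : ℝ} (h : QU v c₀) (p q x ζ : E)
    (r s : ℝ) (hr : 0 < r) (hs : 0 < s) :
    max (max r s) (v (p - q)) * v (ζ - x) ≤ Real.exp c₀ *
      max (max r (v (ζ - p)) * max s (v (x - q))) (max r (v (x - p)) * max s (v (ζ - q))) := by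
  have he : 0 < Real.exp c₀ := Real.exp_pos c₀
  have n1 : 0 ≤ v (ζ - x) := v.nonneg _
  have n2 : 0 ≤ v (ζ - p) := v.nonneg _
  have n3 : 0 ≤ v (ζ - q) := v.nonneg _
  have n4 : 0 ≤ v (x - p) := v.nonneg _
  have n5 : 0 ≤ v (x - q) := v.nonneg _
  obtain ⟨X, hX⟩ : ∃ X, X = max (max r (v (ζ - p)) * max s (v (x - q)))
    (max r (v (x - p)) * max s (v (ζ - q))) := ⟨_, rfl⟩
  have b1 : max r (v (ζ - p)) * max s (v (x - q)) ≤ X := by rw [hX]; exact le_max_left _ _
  have b2 : max r (v (x - p)) * max s (v (ζ - q)) ≤ X := by rw [hX]; exact le_max_right _ _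
  rw [← hX]
  -- the three cases
  have c1 : r * v (ζ - x) ≤ Real.exp c₀ * X := by
    have e1 : v (ζ - x) ≤ Real.exp c₀ * max (v (ζ - q)) (v (x - q)) := by
      have := qu_sub h (ζ - q) (x - q)
      rwa [sub_sub_sub_cancel_right] at this
    have e2 : r * max (v (ζ - q)) (v (x - q)) ≤ X := by
      rw [mul_max_of_nonneg _ _ hr.le]
      refine max_le ?_ ?_
      · exact (mul_le_mul (le_max_left _ _) (le_max_right _ _) n3
          (hr.le.trans (le_max_left _ _))).trans b2
      · exact (mul_le_mul (le_max_left _ _) (le_max_right _ _) n5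
          (hr.le.trans (le_max_left _ _))).trans b1
    calc r * v (ζ - x) ≤ r * (Real.exp c₀ * max (v (ζ - q)) (v (x - q))) :=
          mul_le_mul_of_nonneg_left e1 hr.le
      _ = Real.exp c₀ * (r * max (v (ζ - q)) (v (x - q))) := by ring
      _ ≤ Real.exp c₀ * X := mul_le_mul_of_nonneg_left e2 he.le
  have c2 : s * v (ζ - x) ≤ Real.exp c₀ * X := by
    have e1 : v (ζ - x) ≤ Real.exp c₀ * max (v (ζ - p)) (v (x - p)) := by
      have := qu_sub h (ζ - p) (x - p)
      rwa [sub_sub_sub_cancel_right] at this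
    have e2 : s * max (v (ζ - p)) (v (x - p)) ≤ X := by
      rw [mul_max_of_nonneg _ _ hs.le]
      refine max_le ?_ ?_
      · rw [mul_comm]
        exact (mul_le_mul (le_max_right _ _) (le_max_left _ _) hs.le
          (hr.le.trans (le_max_left _ _))).trans b1
      · rw [mul_comm]
        exact (mul_le_mul (le_max_right _ _) (le_max_left _ _) hs.le
          (hr.le.trans (le_max_left _ _))).trans b2
    calc s * v (ζ - x) ≤ s * (Real.exp c₀ * max (v (ζ - p)) (v (x - p))) :=
          mul_le_mul_of_nonneg_left e1 hs.le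
      _ = Real.exp c₀ * (s * max (v (ζ - p)) (v (x - p))) := by ring
      _ ≤ Real.exp c₀ * X := mul_le_mul_of_nonneg_left e2 he.le
  have c3 : v (p - q) * v (ζ - x) ≤ Real.exp c₀ * X := by
    have e1 : (p - q) * (ζ - x) = (ζ - p) * (x - q) - (x - p) * (ζ - q) := by ring
    rw [← v.map_mul, e1]
    refine (qu_sub h _ _).trans (mul_le_mul_of_nonneg_left ?_ he.le)
    rw [v.map_mul, v.map_mul]
    refine max_le ?_ ?_
    · exact (mul_le_mul (le_max_right _ _) (le_max_right _ _) n5
        (hr.le.trans (le_max_left _ _))).trans b1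
    · exact (mul_le_mul (le_max_right _ _) (le_max_right _ _) n3
        (hr.le.trans (le_max_left _ _))).trans b2
  rw [max_mul_of_nonneg _ _ n1, max_mul_of_nonneg _ _ n1]
  exact max_le (max_le c1 c2) c3

theorem vbd (hF : FroStmt) : VbdStmt := by
  intro E _ v c₀ hQ J _ p r hr x Z hx e hH μ hμ0 hμ1
  have hJ : Nonempty J := by
    by_contra hne
    rw [not_nonempty_iff] at hne
    rw [Finset.univ_eq_empty, Finset.sum_empty] at hμ1
    exact zero_ne_one hμ1
  obtain ⟨K, hK⟩ : ∃ K : J → J → ℝ, K = fun j k => Real.log (max (r j) (v (x - p j))) +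
        Real.log (max (r k) (v (x - p k))) -
        Real.log (max (max (r j) (r k)) (v (p j - p k))) := ⟨_, rfl⟩
  have hKd : ∀ j k, K j k = Real.log (max (r j) (v (x - p j))) +
        Real.log (max (r k) (v (x - p k))) -
        Real.log (max (max (r j) (r k)) (v (p j - p k))) := fun j k => by rw [hK]
  obtain ⟨ν, hν0, hν1, hνmin, hνE⟩ := hF J K (fun j k => by
    rw [hKd, hKd, v.map_sub (p j) (p k), max_comm (r j) (r k)]
    ring)
  obtain ⟨q, hq⟩ : ∃ q, q = ∑ i, ∑ k, ν i * ν k * K i k := ⟨_, rfl⟩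
  have hqμ : q ≤ ∑ j, ∑ k, μ j * μ k * K j k := by
    rw [hq]
    exact hνmin μ hμ0 hμ1
  have hA : ∀ j t, 0 < max (r j) (v (t - p j)) := fun j t => lt_max_of_lt_left (hr j)
  have hone : ∀ ζ ∈ Z, Real.log (v (x - ζ)) ≤ (c₀ + q) +
      ∑ k, ν k * (Real.log (max (r k) (v (ζ - p k))) - Real.log (max (r k) (v (x - p k)))) := by
    intro ζ hζ
    have hne : ζ - x ≠ 0 := fun h => hx (by rw [← sub_eq_zero.1 h]; exact hζ)
    have hpos : 0 < v (ζ - x) := v.pos hne
    -- the minimising index
    have hex : ∃ j ∈ Finset.univ.filter (fun j => ν j ≠ 0), True := by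
      by_contra hcon
      push Not at hcon
      have : ∑ j, ν j = 0 := Finset.sum_eq_zero fun j _ => by
        by_contra hj
        exact hcon j (Finset.mem_filter.2 ⟨Finset.mem_univ j, hj⟩)
      rw [this] at hν1
      exact zero_ne_one hν1
    obtain ⟨j0, hj0, -⟩ := hex
    obtain ⟨j, hj, hjmin⟩ := Finset.exists_min_image (Finset.univ.filter (fun j => ν j ≠ 0))
      (fun j => max (r j) (v (ζ - p j)) / max (r j) (v (x - p j))) ⟨j0, hj0⟩
    have hνj : ν j ≠ 0 := (Finset.mem_filter.1 hj).2
    have hk : ∀ k, ν k * Real.log (v (ζ - x)) ≤ ν k * (c₀ + K j k +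
        (Real.log (max (r k) (v (ζ - p k))) - Real.log (max (r k) (v (x - p k))))) := by
      intro k
      by_cases hνk : ν k = 0
      · rw [hνk, zero_mul, zero_mul]
      · refine mul_le_mul_of_nonneg_left ?_ (hν0 k)
        have h1 := hjmin k (Finset.mem_filter.2 ⟨Finset.mem_univ k, hνk⟩)
        rw [div_le_div_iff₀ (hA j x) (hA k x)] at h1
        have h2 := ptol hQ (p j) (p k) x ζ (r j) (r k) (hr j) (hr k)
        have h3 : max (max (r j) (v (ζ - p j)) * max (r k) (v (x - p k)))
            (max (r j) (v (x - p j)) * max (r k) (v (ζ - p k))) =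
            max (r j) (v (x - p j)) * max (r k) (v (ζ - p k)) := by
          refine max_eq_right ?_
          rw [mul_comm (max (r j) (v (x - p j)))]
          exact h1
        rw [h3] at h2
        have hD : 0 < max (max (r j) (r k)) (v (p j - p k)) :=
          lt_max_of_lt_left (lt_max_of_lt_left (hr j))
        have h4 := Real.log_le_log (mul_pos hD hpos) h2
        rw [Real.log_mul hD.ne' hpos.ne', Real.log_mul (Real.exp_pos c₀).ne'
          (mul_pos (hA j x) (hA k ζ)).ne', Real.log_exp,
          Real.log_mul (hA j x).ne' (hA k ζ).ne'] at h4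
        rw [hKd]
        linarith
    have h5 : Real.log (v (ζ - x)) ≤ ∑ k, ν k * (c₀ + K j k +
        (Real.log (max (r k) (v (ζ - p k))) - Real.log (max (r k) (v (x - p k))))) := by
      calc Real.log (v (ζ - x)) = ∑ k, ν k * Real.log (v (ζ - x)) := by
            rw [← Finset.sum_mul, hν1, one_mul]
        _ ≤ _ := Finset.sum_le_sum fun k _ => hk k
    have h6 : ∑ k, ν k * (c₀ + K j k +
        (Real.log (max (r k) (v (ζ - p k))) - Real.log (max (r k) (v (x - p k))))) =
        c₀ + ∑ k, ν k * K j k +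
        ∑ k, ν k * (Real.log (max (r k) (v (ζ - p k))) - Real.log (max (r k) (v (x - p k)))) := by
      have h7 : c₀ = ∑ k, ν k * c₀ := by rw [← Finset.sum_mul, hν1, one_mul]
      conv_rhs => rw [h7]
      rw [← Finset.sum_add_distrib, ← Finset.sum_add_distrib]
      exact Finset.sum_congr rfl fun k _ => by ring
    have h8 := hνE j hνj
    rw [← hq] at h8
    rw [v.map_sub x ζ]
    linarith
  have hsum := Multiset.sum_map_le_sum_map _ _ hone
  rw [msum Z (c₀ + q) ν (fun k => Real.log (max (r k) (v (x - p k))))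
    (fun k ζ => Real.log (max (r k) (v (ζ - p k))))] at hsum
  have h9 : ∑ k, ν k * ((Z.map (fun ζ => Real.log (max (r k) (v (ζ - p k))))).sum -
      (Multiset.card Z : ℝ) * Real.log (max (r k) (v (x - p k)))) ≤
      (Multiset.card Z : ℝ) * e := by
    calc ∑ k, ν k * ((Z.map (fun ζ => Real.log (max (r k) (v (ζ - p k))))).sum -
      (Multiset.card Z : ℝ) * Real.log (max (r k) (v (x - p k))))
        ≤ ∑ k, ν k * ((Multiset.card Z : ℝ) * e) := by
          refine Finset.sum_le_sum fun k _ => mul_le_mul_of_nonneg_left ?_ (hν0 k)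
          have := hH k
          rw [Harm, mul_add] at this
          linarith
      _ = (Multiset.card Z : ℝ) * e := by rw [← Finset.sum_mul, hν1, one_mul]
  have h10 : (Multiset.card Z : ℝ) * q ≤
      (Multiset.card Z : ℝ) * ∑ j, ∑ k, μ j * μ k * K j k :=
    mul_le_mul_of_nonneg_left hqμ (Nat.cast_nonneg _)
  have h11 : ∑ j, ∑ k, μ j * μ k * K j k = ∑ j, ∑ k, μ j * μ k *
      (Real.log (max (r j) (v (x - p j))) + Real.log (max (r k) (v (x - p k))) -
        Real.log (max (max (r j) (r k)) (v (p j - p k)))) := by rw [hK]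
  rw [← h11]
  rw [mul_add] at hsum ⊢
  rw [mul_add]
  linarith

end Pool.Agent.MNT.H76
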